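import Mathlib
import Pool.Agent.T2H30.DN.Defs

/-! `GL_2` over a quadratic extension: the places which are inert. -/

set_option autoImplicit false

namespace Pool.Agent.T2H30.IN

open NumberField IsDedekindDomain Pool.Agent.TH861.GL3
open Pool.Agent.T2H30.DN (EulerProduct Unitary)

variable {F E : Type} [Field F] [NumberField F] [Field E] [NumberField E] [Algebra F E]

/-- the places of `E` above the place `v` of `F` -/
def above (E : Type) [Field E] [NumberField E] [Algebra F E] (v : HeightOneSpectrum (𝓞 F)) :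
    Set (HeightOneSpectrum (𝓞 E)) := {w | w.asIdeal.LiesOver v.asIdeal}

/-- The place `v` is inert in the quadratic extension `E`: there is a place `w` above `v` with `N w = (N v)²`. -/
def InertIn (E : Type) [Field E] [NumberField E] [Algebra F E] (v : HeightOneSpectrum (𝓞 F)) : Prop :=
  ∃ w ∈ above E v, Ideal.absNorm w.asIdeal = Ideal.absNorm v.asIdeal ^ 2

open scoped Classical in
/-- The trace of the `k`-th power of a Frobenius element of `v` in the Asai representation `As^+` (`e = 1`) or `As^-`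
(`e = -1`) of a representation `ρ` of the `L`-group over `E`, `t w j` being the trace of the `j`-th power of the
Frobenius of `w` in `ρ`. For `v` split, `v = w w'`, it is `t w k * t w' k`. If `v` is inert and `w` above `v`, it is
`e * t w k` for odd `k`, and `(t w (k / 2))²` for even `k`. -/
noncomputable def asai (e : ℝ) (t : HeightOneSpectrum (𝓞 E) → ℕ → ℝ) (v : HeightOneSpectrum (𝓞 F)) (k : ℕ) : ℝ :=
  if InertIn E v then
    if Odd k then e * ∏ᶠ w ∈ above E v, t w k else ∏ᶠ w ∈ above E v, t w (k / 2) ^ 2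
  else ∏ᶠ w ∈ above E v, t w k

/-- `|α_{1,w}^k + α_{2,w}^k|²` -/
noncomputable def yy (α : HeightOneSpectrum (𝓞 E) → Fin 2 → ℂ) (w : HeightOneSpectrum (𝓞 E)) (k : ℕ) : ℝ :=
  ‖α w 0 ^ k + α w 1 ^ k‖ ^ 2

/-- the trace of the `k`-th power in the adjoint representation `Sym² ⊗ ω⁻¹`, for a unitary component `π_w` -/
noncomputable def ad (α : HeightOneSpectrum (𝓞 E) → Fin 2 → ℂ) (w : HeightOneSpectrum (𝓞 E)) (k : ℕ) : ℝ :=
  yy α w k - 1

/-- the trace of the `k`-th power in the representation `Sym⁴ ⊗ ω⁻²`, for a unitary component `π_w` -/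
noncomputable def sym4 (α : HeightOneSpectrum (𝓞 E) → Fin 2 → ℂ) (w : HeightOneSpectrum (𝓞 E)) (k : ℕ) : ℝ :=
  yy α w k ^ 2 - 3 * yy α w k + 1

/-- Properties of the Satake parameters `α w` of a unitary cuspidal automorphic representation `π` of `GL_2` over the
quadratic extension `E` of the number field `F`, such that `Sym⁴ π` is cuspidal; `S` is a finite set of finite places
of `F` containing those which ramify in `E` and those above which `π` is ramified. `p`, `p'` and `q`, `q'` are the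
orders of the poles at `s = 1` of the Asai `L`-functions `L^S(s, Sym² π ⊗ ω⁻¹, As^±)` and `L^S(s, Sym⁴ π ⊗ ω⁻², As^±)`
over `F`; `p = p' = 0` unless the conjugate of `π` over `F` is a twist of `π`. -/
structure CuspidalGL2 (S : Finset (HeightOneSpectrum (𝓞 F))) (α : HeightOneSpectrum (𝓞 E) → Fin 2 → ℂ)
    (p p' q q' : ℕ) : Prop where
  /-- `S` contains the ramified places -/
  unramified : ∀ v : HeightOneSpectrum (𝓞 F), v ∉ S → (above E v).ncard = 2 ∨ InertIn E v
  /-- the local components are unitary -/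
  unitary : ∀ v : HeightOneSpectrum (𝓞 F), v ∉ S → ∀ w ∈ above E v, Unitary (α w)
  /-- the pole is at most simple -/
  simple : p ≤ 1
  /-- the Asai `L`-functions of `Sym² π ⊗ ω⁻¹` (on `GL_3`, Gelbart-Jacquet) -/
  ad_plus : EulerProduct (fun x : PL S × ℕ => asai 1 (ad α) x.1.1 (x.2 + 1)) p
  ad_minus : EulerProduct (fun x : PL S × ℕ => asai (-1) (ad α) x.1.1 (x.2 + 1)) p'
  /-- the Asai `L`-functions of `Sym⁴ π ⊗ ω⁻²` (on `GL_5`, Kim) -/
  sym_plus : EulerProduct (fun x : PL S × ℕ => asai 1 (sym4 α) x.1.1 (x.2 + 1)) q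
  sym_minus : EulerProduct (fun x : PL S × ℕ => asai (-1) (sym4 α) x.1.1 (x.2 + 1)) q'

variable {S : Finset (HeightOneSpectrum (𝓞 F))}

/-- Among the places `v ∉ S` which are inert in `E` those with `P v` have upper natural density at most `δ`, in every
interval `(X, (1 + η) X]`. -/
def UpperInert (E : Type) [Field E] [NumberField E] [Algebra F E] (P : PL S → Prop) (δ : ℝ) : Prop :=
  ∀ η : ℝ, 0 < η → ∀ ε : ℝ, 0 < ε → ∃ X₀ : ℝ, ∀ X : ℝ, X₀ ≤ X →
    (({v : PL S | X < (qq v.1 : ℝ) ∧ (qq v.1 : ℝ) ≤ (1 + η) * X ∧ InertIn E v.1 ∧ P v}.ncard : ℕ) : ℝ) ≤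
      (δ + ε) * (({v : PL S | X < (qq v.1 : ℝ) ∧ (qq v.1 : ℝ) ≤ (1 + η) * X ∧ InertIn E v.1}.ncard : ℕ) : ℝ)

/-- Among the places `v ∉ S` which are inert in `E` those with `P v` have lower natural density at least `δ`, in every
interval `(X, (1 + η) X]`. -/
def LowerInert (E : Type) [Field E] [NumberField E] [Algebra F E] (P : PL S → Prop) (δ : ℝ) : Prop :=
  ∀ η : ℝ, 0 < η → ∀ ε : ℝ, 0 < ε → ∃ X₀ : ℝ, ∀ X : ℝ, X₀ ≤ X →
    (δ - ε) * (({v : PL S | X < (qq v.1 : ℝ) ∧ (qq v.1 : ℝ) ≤ (1 + η) * X ∧ InertIn E v.1}.ncard : ℕ) : ℝ) ≤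
      (({v : PL S | X < (qq v.1 : ℝ) ∧ (qq v.1 : ℝ) ≤ (1 + η) * X ∧ InertIn E v.1 ∧ P v}.ncard : ℕ) : ℝ)

end Pool.Agent.T2H30.IN
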