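import Mathlib
import Pool.Agent.T2H30.IN.Defs
import Pool.Agent.T2H30.SU3.Inert
import Pool.Agent.T2H30.DN.Zeta
import Pool.Agent.T2H30.DN.Dens

/-! Inert places: half of all places. -/

set_option autoImplicit false

open Set Filter Topology NumberField IsDedekindDomain
open Pool.Agent.TH861.GL3
open Pool.Agent.T2H30.DN Pool.Agent.T2H30.SU3
open Pool.Agent.H921R2.TatePole (nm two_le_nm)
open H332.PIT (prLE mem_prLE log_nm_nonneg)

namespace Pool.Agent.T2H30.IN

variable {F E : Type} [Field F] [NumberField F] [Field E] [NumberField E] [Algebra F E]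

theorem mem_above {v : HeightOneSpectrum (𝓞 F)} {w : HeightOneSpectrum (𝓞 E)} : w ∈ above E v ↔ dn F w = v := by
  rw [dn_eq_iff]
  rfl

theorem above_eq (v : HeightOneSpectrum (𝓞 F)) : above E v = (Fib E v : Set (HeightOneSpectrum (𝓞 E))) := by
  ext w
  rw [mem_above, Finset.mem_coe, mem_Fib]

theorem inert_iff {v : HeightOneSpectrum (𝓞 F)} : InertIn E v ↔ ∃ w ∈ Fib E v, fr F w = 2 := by
  unfold InertIn
  constructor
  · rintro ⟨w, hw, hn⟩
    rw [mem_above] at hw
    refine ⟨w, mem_Fib.2 hw, ?_⟩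
    have h1 := norm_rel (F := F) w
    rw [hn, hw] at h1
    have h2 := two_le_nm v
    exact (Nat.pow_right_injective h2 h1).symm
  · rintro ⟨w, hw, hn⟩
    rw [mem_Fib] at hw
    refine ⟨w, mem_above.2 hw, ?_⟩
    rw [norm_rel (F := F) w, hn, hw]

theorem inert_single (h : Module.finrank F E = 2) {v : HeightOneSpectrum (𝓞 F)} (hv : InertIn E v) :
    ∃ w, above E v = {w} := by
  classical
  obtain ⟨w, hw, hn⟩ := inert_iff.1 hv
  refine ⟨w, ?_⟩
  rw [above_eq]
  have h1 := sum_ef (E := E) v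
  rw [h] at h1
  have h2 : er F w * fr F w + ∑ w' ∈ (Fib E v).erase w, er F w' * fr F w' = 2 := by
    rw [← h1]
    exact Finset.add_sum_erase (Fib E v) (fun w => er F w * fr F w) hw
  have h3 := er_pos (F := F) w
  have h4 : (Fib E v).erase w = ∅ := by
    rw [Finset.eq_empty_iff_forall_notMem]
    intro w' hw'
    have h5 : er F w' * fr F w' ≤ ∑ w' ∈ (Fib E v).erase w, er F w' * fr F w' :=
      Finset.single_le_sum (f := fun w => er F w * fr F w) (fun _ _ => Nat.zero_le _) hw'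
    have h6 : 0 < er F w' * fr F w' := Nat.mul_pos (er_pos w') (fr_pos w')
    rw [hn] at h2
    omega
  ext w'
  simp only [Finset.mem_coe, Set.mem_singleton_iff]
  constructor
  · intro hw'
    by_contra hne
    have := Finset.mem_erase.2 ⟨hne, hw'⟩
    rw [h4] at this
    exact Finset.notMem_empty _ this
  · rintro rfl
    exact hw

open scoped Classical in
theorem wj2 (h : Module.finrank F E = 2) (v : HeightOneSpectrum (𝓞 F)) :
    (Wj E 2 v : ℝ) = if InertIn E v then 1 else 0 := by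
  have h1 := (W_le (E := E) h v).1
  split_ifs with hv
  · obtain ⟨w, hw, hn⟩ := inert_iff.1 hv
    have h2 : 0 < Wj E 2 v := by
      unfold Wj
      exact Finset.card_pos.2 ⟨w, Finset.mem_filter.2 ⟨hw, hn⟩⟩
    have : Wj E 2 v = 1 := by omega
    rw [this]
    norm_num
  · have h2 : Wj E 2 v = 0 := by
      unfold Wj
      rw [Finset.card_eq_zero, Finset.filter_eq_empty_iff]
      intro w hw hn
      exact hv (inert_iff.2 ⟨w, hw, hn⟩)
    rw [h2]
    norm_num

variable {S : Finset (HeightOneSpectrum (𝓞 F))}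

open scoped Classical in
/-- first powers of the places with `P` -/
noncomputable def ind (P : HeightOneSpectrum (𝓞 F) → Prop) (x : PL S × ℕ) : ℝ := if x.2 = 0 ∧ P x.1.1 then 1 else 0

open scoped Classical in
theorem psi_ind (P : HeightOneSpectrum (𝓞 F) → Prop) {X : ℝ} (hX : 0 ≤ X) :
    psi (ind (S := S) P) X = ∑ v ∈ (prLE F ⌊X⌋₊).filter (fun v => v ∉ S ∧ P v), Real.log (nm v) := by
  unfold psi
  set A := (prLE F ⌊X⌋₊).filter (fun v => v ∉ S ∧ P v) with hA
  set i : {v // v ∈ A} → PL S × ℕ := fun v => (⟨v.1, (Finset.mem_filter.1 v.2).2.1⟩, 0) with hi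
  have hinj : Function.Injective i := by
    intro a b hab
    rw [hi] at hab
    simp only [Prod.mk.injEq, Subtype.mk.injEq, and_true] at hab
    exact Subtype.ext hab
  have hsup : ∀ x, x ∉ A.attach.image i →
      (if (Nx x : ℝ) ≤ X then ind (S := S) P x * lq x else 0) = 0 := by
    intro x hx
    by_cases h1 : (Nx x : ℝ) ≤ X
    · rw [if_pos h1]
      by_cases h2 : x.2 = 0 ∧ P x.1.1
      · exfalso
        apply hx
        have h3 : x.1.1 ∈ A := by
          rw [hA, Finset.mem_filter, mem_prLE]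
          refine ⟨Nat.le_floor ?_, x.1.2, h2.2⟩
          unfold Nx at h1
          rw [h2.1, zero_add, pow_one] at h1
          exact h1
        rw [Finset.mem_image]
        refine ⟨⟨x.1.1, h3⟩, Finset.mem_attach _ _, ?_⟩
        rw [hi]
        exact Prod.ext rfl h2.1.symm
      · unfold ind
        rw [if_neg h2, zero_mul]
    · rw [if_neg h1]
  rw [tsum_eq_sum fun x hx => hsup x hx, Finset.sum_image fun a _ b _ h => hinj h, ← Finset.sum_attach A]
  refine Finset.sum_congr rfl fun v _ => ?_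
  obtain ⟨v, hv⟩ := v
  have h1 := Finset.mem_filter.1 hv
  have h2 : (Nx (i ⟨v, hv⟩) : ℝ) ≤ X := by
    unfold Nx
    rw [hi]
    simp only [zero_add, pow_one]
    rw [mem_prLE] at h1
    exact (Nat.le_floor_iff hX).1 h1.1
  rw [if_pos h2]
  unfold ind
  rw [if_pos ⟨rfl, h1.2.2⟩, one_mul]
  rfl

/-- the places which are not inert: half of all places -/
theorem psi_noninert (h : Module.finrank F E = 2) :
    Tendsto (fun X : ℝ => psi (ind (S := S) fun v => ¬ InertIn E v) X / X) atTop (𝓝 (1 / 2)) := by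
  classical
  have h1 : Tendsto (fun n : ℕ => (thK F n - In F E n / 2) / n) atTop (𝓝 (1 / 2)) := by
    have h2 := (thK_tendsto (K := F)).sub ((In_tendsto (F := F) (E := E) h).div_const 2)
    have e : (1 : ℝ) - 1 / 2 = 1 / 2 := by norm_num
    rw [e] at h2
    refine h2.congr fun n => ?_
    ring
  have h2 : Tendsto (fun X : ℝ => (thK F ⌊X⌋₊ - In F E ⌊X⌋₊ / 2) / X) atTop (𝓝 (1 / 2)) := by
    have h3 := (h1.comp (tendsto_nat_floor_atTop (α := ℝ))).mul (tendsto_nat_floor_div_atTop (R := ℝ))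
    rw [mul_one] at h3
    refine h3.congr' ?_
    filter_upwards [eventually_ge_atTop 1] with X hX
    simp only [Function.comp]
    have h4 : (0 : ℝ) < (⌊X⌋₊ : ℝ) := by exact_mod_cast Nat.floor_pos.2 hX
    field_simp
  set C : ℝ := ∑ v ∈ S, Real.log (nm v) with hC
  have hkey : ∀ X : ℝ, 1 ≤ X →
      0 ≤ (thK F ⌊X⌋₊ - In F E ⌊X⌋₊ / 2) - psi (ind (S := S) fun v => ¬ InertIn E v) X ∧
      (thK F ⌊X⌋₊ - In F E ⌊X⌋₊ / 2) - psi (ind (S := S) fun v => ¬ InertIn E v) X ≤ C := by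
    intro X hX
    have hn : 1 ≤ ⌊X⌋₊ := Nat.floor_pos.2 hX
    rw [psi_ind _ (by linarith), ← In_eq (E := E) h hn]
    have e1 : (∑ v ∈ prLE F ⌊X⌋₊, 2 * (Wj E 2 v : ℝ) * Real.log (nm v)) / 2 =
        ∑ v ∈ prLE F ⌊X⌋₊, (if InertIn E v then (1 : ℝ) else 0) * Real.log (nm v) := by
      rw [Finset.sum_div]
      refine Finset.sum_congr rfl fun v _ => ?_
      rw [wj2 h v]
      ring
    rw [e1, Finset.sum_filter]
    unfold thK
    rw [← Finset.sum_sub_distrib, ← Finset.sum_sub_distrib]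
    refine ⟨Finset.sum_nonneg fun v _ => ?_, ?_⟩
    · have := log_nm_nonneg v
      by_cases a1 : InertIn E v <;> by_cases a2 : v ∈ S <;> simp [a1, a2, this]
    · have h4 : ∑ v ∈ (prLE F ⌊X⌋₊).filter (fun v => v ∈ S), Real.log (nm v) ≤ C := by
        rw [hC]
        refine Finset.sum_le_sum_of_subset_of_nonneg (fun v hv => (Finset.mem_filter.1 hv).2) fun v _ _ =>
          log_nm_nonneg v
      refine le_trans ?_ h4
      rw [Finset.sum_filter]
      refine Finset.sum_le_sum fun v _ => ?_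
      have := log_nm_nonneg v
      by_cases a1 : InertIn E v <;> by_cases a2 : v ∈ S <;> simp [a1, a2, this]
  have h3 : Tendsto (fun X : ℝ => ((thK F ⌊X⌋₊ - In F E ⌊X⌋₊ / 2) -
      psi (ind (S := S) fun v => ¬ InertIn E v) X) / X) atTop (𝓝 0) := by
    refine squeeze_zero' ?_ ?_ (tendsto_const_nhds.div_atTop tendsto_id : Tendsto (fun X : ℝ => C / X) atTop (𝓝 0))
    · filter_upwards [eventually_ge_atTop 1] with X hX
      exact div_nonneg (hkey X hX).1 (by linarith)
    · filter_upwards [eventually_ge_atTop 1] with X hX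
      exact div_le_div_of_nonneg_right (hkey X hX).2 (by linarith)
  have h4 := h2.sub h3
  rw [sub_zero] at h4
  refine h4.congr fun X => ?_
  ring

theorem upper_noninert (h : Module.finrank F E = 2) : UpperDensityLE (fun v : PL S => ¬ InertIn E v.1) (1 / 2) := by
  have h1 := upper_of_tendsto (S := S) (c := ind (S := S) fun v => ¬ InertIn E v) (fun x => by
    unfold ind
    split_ifs <;> norm_num) (psi_noninert h) (P := fun v : PL S => ¬ InertIn E v.1) one_pos (fun v hv => by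
    unfold ind
    rw [if_pos ⟨rfl, hv⟩])
  rwa [div_one] at h1

theorem lower_inert (h : Module.finrank F E = 2) : LowerDensityGE (fun v : PL S => InertIn E v.1) (1 / 2) := by
  have h1 := lower_of_upper (upper_noninert (S := S) h)
  have e : (1 : ℝ) - 1 / 2 = 1 / 2 := by norm_num
  rw [e] at h1
  exact h1.mono fun v hv => not_not.1 hv

/-- relative densities -/
theorem upper_rel (h : Module.finrank F E = 2) {P : PL S → Prop} {δ : ℝ} (hδ : 0 ≤ δ)
    (hP : UpperDensityLE (fun v : PL S => InertIn E v.1 ∧ P v) (δ / 2)) : UpperInert E P δ := by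
  intro η hη ε hε
  set t : ℝ := ε / (2 * (1 + δ + ε)) with ht
  have ht0 : 0 < t := by positivity
  obtain ⟨X₁, h1⟩ := hP η hη t ht0
  obtain ⟨X₂, h2⟩ := lower_inert (S := S) (E := E) h η hη t ht0
  refine ⟨max 2 (max X₁ X₂), fun X hX => ?_⟩
  have hX2 : 2 ≤ X := (le_max_left _ _).trans hX
  have h3 := h1 X ((le_max_left _ _).trans ((le_max_right _ _).trans hX))
  have h4 := h2 X ((le_max_right _ _).trans ((le_max_right _ _).trans hX))
  have hL : 0 < η * X / Real.log X := by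
    have := Real.log_pos (by linarith : (1 : ℝ) < X)
    positivity
  refine h3.trans ?_
  refine le_trans ?_ (mul_le_mul_of_nonneg_left h4 (by linarith))
  have h5 : t * (1 + δ + ε) = ε / 2 := by
    rw [ht]
    field_simp
  have h6 : δ / 2 + t ≤ (δ + ε) * (1 / 2 - t) := by nlinarith
  calc (δ / 2 + t) * (η * X / Real.log X) ≤ ((δ + ε) * (1 / 2 - t)) * (η * X / Real.log X) :=
        mul_le_mul_of_nonneg_right h6 hL.le
    _ = _ := by ring

theorem lower_rel {P Q : PL S → Prop} {δ : ℝ} (hP : UpperInert E P δ) (hPQ : ∀ v, InertIn E v.1 → ¬ P v → Q v) :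
    LowerInert E Q (1 - δ) := by
  intro η hη ε hε
  obtain ⟨X₀, h1⟩ := hP η hη ε hε
  refine ⟨X₀, fun X hX => ?_⟩
  have h2 := h1 X hX
  have h5 : {v : PL S | X < (qq v.1 : ℝ) ∧ (qq v.1 : ℝ) ≤ (1 + η) * X ∧ InertIn E v.1} ⊆
      {v : PL S | X < (qq v.1 : ℝ) ∧ (qq v.1 : ℝ) ≤ (1 + η) * X ∧ InertIn E v.1 ∧ P v} ∪
      {v : PL S | X < (qq v.1 : ℝ) ∧ (qq v.1 : ℝ) ≤ (1 + η) * X ∧ InertIn E v.1 ∧ Q v} := by
    intro v hv
    by_cases h3 : P v
    · exact Or.inl ⟨hv.1, hv.2.1, hv.2.2, h3⟩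
    · exact Or.inr ⟨hv.1, hv.2.1, hv.2.2, hPQ v hv.2.2 h3⟩
  have h6 := (Set.ncard_le_ncard h5 ((IS_finite (fun v => InertIn E v.1 ∧ P v) X η).union
    (IS_finite (fun v => InertIn E v.1 ∧ Q v) X η))).trans (Set.ncard_union_le _ _)
  have h7 : (({v : PL S | X < (qq v.1 : ℝ) ∧ (qq v.1 : ℝ) ≤ (1 + η) * X ∧ InertIn E v.1}.ncard : ℕ) : ℝ) ≤
    (({v : PL S | X < (qq v.1 : ℝ) ∧ (qq v.1 : ℝ) ≤ (1 + η) * X ∧ InertIn E v.1 ∧ P v}.ncard : ℕ) : ℝ) +
    (({v : PL S | X < (qq v.1 : ℝ) ∧ (qq v.1 : ℝ) ≤ (1 + η) * X ∧ InertIn E v.1 ∧ Q v}.ncard : ℕ) : ℝ) := by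
    exact_mod_cast h6
  linarith

end Pool.Agent.T2H30.IN
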