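import Mathlib
import Pool.Agent.T2H30.IN.Places
import Pool.Agent.T2H30.DN.Local

/-! `GL_2` over a quadratic extension at the inert places. -/

set_option autoImplicit false

open Set Filter Topology NumberField IsDedekindDomain
open Pool.Agent.TH861.GL3
open Pool.Agent.T2H30.DN Pool.Agent.T2H30.SU3

namespace Pool.Agent.T2H30.IN

variable {F E : Type} [Field F] [NumberField F] [Field E] [NumberField E] [Algebra F E]

theorem asai_out {v : HeightOneSpectrum (𝓞 F)} {k : ℕ} (hv : ¬ (InertIn E v ∧ Odd k))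
    (t : HeightOneSpectrum (𝓞 E) → ℕ → ℝ) : asai 1 t v k - asai (-1) t v k = 0 := by
  unfold asai
  by_cases h1 : InertIn E v
  · have h2 : ¬ Odd k := fun h => hv ⟨h1, h⟩
    rw [if_pos h1, if_pos h1, if_neg h2, if_neg h2, sub_self]
  · rw [if_neg h1, if_neg h1, sub_self]

theorem asai_in {v : HeightOneSpectrum (𝓞 F)} {k : ℕ} (hv : InertIn E v) (hk : Odd k) {w : HeightOneSpectrum (𝓞 E)}
    (hw : above E v = {w}) (t : HeightOneSpectrum (𝓞 E) → ℕ → ℝ) :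
    asai 1 t v k - asai (-1) t v k = 2 * t w k := by
  unfold asai
  rw [if_pos hv, if_pos hv, if_pos hk, if_pos hk, hw]
  simp only [Set.mem_singleton_iff, finprod_eq_single _ w, finprod_cond_eq_left]
  ring

/-- the pair of the Satake parameters -/
theorem bad_local {a : Fin 2 → ℂ} (h : Unitary a) {R : ℝ} (hR : 1 ≤ R) {i : Fin 2} (hi : ‖a i‖ ≠ 1)
    (hi2 : R ≤ ‖a i‖) : (R + R⁻¹) ^ 2 ≤ ‖a 0 + a 1‖ ^ 2 := by
  obtain ⟨j, hji, hj⟩ := h.partner hi
  have h1 : a 0 + a 1 = a i + ((starRingEnd ℂ) (a i))⁻¹ := by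
    rw [← hj]
    fin_cases i <;> fin_cases j <;> simp_all [add_comm]
  obtain ⟨u, hu, hu1, -⟩ := polar (h.1 i)
  rw [h1, hu1, norm_mul, hu, mul_one, Complex.norm_real, Real.norm_of_nonneg (by positivity)]
  have h2 := add_inv_mono hR hi2
  have h3 := two_le_add_inv (by linarith : 0 < R)
  exact pow_le_pow_left₀ (by linarith) h2 2

variable {S : Finset (HeightOneSpectrum (𝓞 F))} {α : HeightOneSpectrum (𝓞 E) → Fin 2 → ℂ} {p p' q q' : ℕ}

theorem main_bound (hEF : Module.finrank F E = 2) (h : CuspidalGL2 S α p p' q q') {R a : ℝ} (hR : 1 ≤ R)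
    (ha : a < (R + R⁻¹) ^ 2) :
    0 ≤ ((1 + ((p : ℝ) - p') - a) ^ 2 + (1 + ((p : ℝ) - p') + ((q : ℝ) - q') - ((p : ℝ) - p') ^ 2)) /
      ((R + R⁻¹) ^ 2 - a) ^ 2 ∧
    UpperInert E (fun v : PL S => ∃ w ∈ above E v.1, ∃ i, ‖α w i‖ ≠ 1 ∧ R ≤ ‖α w i‖)
      (((1 + ((p : ℝ) - p') - a) ^ 2 + (1 + ((p : ℝ) - p') + ((q : ℝ) - q') - ((p : ℝ) - p') ^ 2)) /
      ((R + R⁻¹) ^ 2 - a) ^ 2) := by
  set T : ℝ := (R + R⁻¹) ^ 2 with hT
  set D : ℝ := (T - a) ^ 2 with hD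
  have hTa : 0 < T - a := by linarith
  have hD0 : 0 < D := by positivity
  set q0 : ℝ := (a ^ 2 - 2 * a + 2) / D with hq0
  set q1 : ℝ := (3 - 2 * a) / D with hq1
  set q2 : ℝ := 1 / D with hq2
  have hq0' : 0 < q0 := by
    rw [hq0]
    have : 0 < a ^ 2 - 2 * a + 2 := by nlinarith [sq_nonneg (a - 1)]
    positivity
  set c1 : PL S × ℕ → ℝ := fun x => (2 * q0) * 1 + q1 * (asai 1 (ad α) x.1.1 (x.2 + 1) +
    (-1) * asai (-1) (ad α) x.1.1 (x.2 + 1)) + q2 * (asai 1 (sym4 α) x.1.1 (x.2 + 1) +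
    (-1) * asai (-1) (sym4 α) x.1.1 (x.2 + 1)) with hc1
  set c2 : PL S × ℕ → ℝ := fun x => c1 x + (-(2 * q0)) * ind (S := S) (fun v => ¬ InertIn E v) x with hc2
  have hcont : Cont c1 ((2 * q0) * 1 + q1 * ((p : ℝ) + (-1) * p') + q2 * ((q : ℝ) + (-1) * q')) :=
    (((cont_one (Pool.Agent.H484R2.continuation F) S).smul (2 * q0)).add
      ((h.ad_plus.cont.add (h.ad_minus.cont.smul (-1))).smul q1)).add
      ((h.sym_plus.cont.add (h.sym_minus.cont.smul (-1))).smul q2)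
  -- the values
  have hval : ∀ x : PL S × ℕ, InertIn E x.1.1 → Odd (x.2 + 1) → ∀ w, above E x.1.1 = {w} →
      c1 x = 2 * ((yy α w (x.2 + 1) - a) / (T - a)) ^ 2 := by
    intro x h1 h2 w hw
    have e1 := asai_in h1 h2 hw (ad α)
    have e2 := asai_in h1 h2 hw (sym4 α)
    have e3 : c1 x = 2 * q0 + q1 * (asai 1 (ad α) x.1.1 (x.2 + 1) - asai (-1) (ad α) x.1.1 (x.2 + 1)) +
      q2 * (asai 1 (sym4 α) x.1.1 (x.2 + 1) - asai (-1) (sym4 α) x.1.1 (x.2 + 1)) := by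
      rw [hc1]
      ring
    rw [e3, e1, e2, div_pow, ← hD, hq0, hq1, hq2]
    unfold ad sym4
    field_simp
    ring
  have hout : ∀ x : PL S × ℕ, ¬ (InertIn E x.1.1 ∧ Odd (x.2 + 1)) → c1 x = 2 * q0 := by
    intro x h1
    have e1 := asai_out h1 (ad α)
    have e2 := asai_out h1 (sym4 α)
    have e3 : c1 x = 2 * q0 + q1 * (asai 1 (ad α) x.1.1 (x.2 + 1) - asai (-1) (ad α) x.1.1 (x.2 + 1)) +
      q2 * (asai 1 (sym4 α) x.1.1 (x.2 + 1) - asai (-1) (sym4 α) x.1.1 (x.2 + 1)) := by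
      rw [hc1]
      ring
    rw [e3, e1, e2]
    ring
  have hc1n : ∀ x, 0 ≤ c1 x := by
    intro x
    by_cases h1 : InertIn E x.1.1 ∧ Odd (x.2 + 1)
    · obtain ⟨w, hw⟩ := inert_single hEF h1.1
      rw [hval x h1.1 h1.2 w hw]
      positivity
    · rw [hout x h1]
      positivity
  have hc2n : ∀ x, 0 ≤ c2 x := by
    intro x
    rw [hc2]
    simp only
    unfold ind
    split_ifs with h2
    · rw [hout x fun h3 => h2.2 h3.1]
      linarith
    · rw [mul_zero, add_zero]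
      exact hc1n x
  have ht : Tendsto (fun X => psi c2 X / X) atTop
      (𝓝 (((1 + ((p : ℝ) - p') - a) ^ 2 + (1 + ((p : ℝ) - p') + ((q : ℝ) - q') - ((p : ℝ) - p') ^ 2)) / D)) := by
    have h1 := (hcont.tendsto hc1n).add ((psi_noninert (S := S) (E := E) hEF).const_mul (-(2 * q0)))
    have e1 : (2 * q0) * 1 + q1 * ((p : ℝ) + (-1) * p') + q2 * ((q : ℝ) + (-1) * q') + -(2 * q0) * (1 / 2) =
        ((1 + ((p : ℝ) - p') - a) ^ 2 + (1 + ((p : ℝ) - p') + ((q : ℝ) - q') - ((p : ℝ) - p') ^ 2)) / D := by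
      rw [hq0, hq1, hq2]
      field_simp
      ring
    rw [e1] at h1
    refine h1.congr fun X => ?_
    have e2 : psi c2 X = psi c1 X + -(2 * q0) * psi (ind (S := S) fun v => ¬ InertIn E v) X := by
      rw [hc2, psi_add, psi_smul]
    rw [e2]
    ring
  set A : ℝ := ((1 + ((p : ℝ) - p') - a) ^ 2 + (1 + ((p : ℝ) - p') + ((q : ℝ) - q') - ((p : ℝ) - p') ^ 2)) / D with hA
  have hA0 : 0 ≤ A := by
    refine ge_of_tendsto ht ?_
    filter_upwards [eventually_gt_atTop 0] with X hX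
    refine div_nonneg (tsum_nonneg fun x => ?_) hX.le
    split_ifs
    · exact mul_nonneg (hc2n x) (lq_pos x).le
    · exact le_rfl
  refine ⟨hA0, upper_rel hEF hA0 ?_⟩
  refine upper_of_tendsto hc2n ht two_pos ?_
  rintro v ⟨hv, w, hw, i, hi, hi2⟩
  obtain ⟨w', hw'⟩ := inert_single hEF hv
  have hww : w = w' := by
    rw [hw'] at hw
    exact hw
  subst hww
  have e1 : c2 (v, 0) = c1 (v, 0) := by
    rw [hc2]
    simp only
    unfold ind
    rw [if_neg fun h => h.2 hv, mul_zero, add_zero]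
  rw [e1, hval (v, 0) hv (by norm_num) w hw']
  have h2 := bad_local (h.unitary v.1 v.2 w hw) hR hi hi2
  have h3 : T ≤ yy α w (0 + 1) := by
    unfold yy
    rw [zero_add, pow_one, pow_one]
    exact h2
  have h4 : 1 ≤ (yy α w (0 + 1) - a) / (T - a) := by
    rw [one_le_div hTa]
    linarith
  simp only
  nlinarith

/-- **Cantelli's inequality** -/
theorem main_upper (hEF : Module.finrank F E = 2) (h : CuspidalGL2 S α p p' q q') {R : ℝ} (hR : 1 ≤ R) :
    UpperInert E (fun v : PL S => ∃ w ∈ above E v.1, ∃ i, ‖α w i‖ ≠ 1 ∧ R ≤ ‖α w i‖)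
      ((1 + ((p : ℝ) - p') + ((q : ℝ) - q') - ((p : ℝ) - p') ^ 2) /
      ((1 + ((p : ℝ) - p') + ((q : ℝ) - q') - ((p : ℝ) - p') ^ 2) +
        ((R + R⁻¹) ^ 2 - 1 - ((p : ℝ) - p')) ^ 2)) := by
  have hp : (p : ℝ) ≤ 1 := by exact_mod_cast h.simple
  have hp' : (0 : ℝ) ≤ p' := Nat.cast_nonneg _
  have hR2 := two_le_add_inv (by linarith : 0 < R)
  set n : ℝ := (p : ℝ) - p' with hn
  set V : ℝ := 1 + n + ((q : ℝ) - q') - n ^ 2 with hV
  set T : ℝ := (R + R⁻¹) ^ 2 with hT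
  have hT4 : 4 ≤ T := by nlinarith
  have hTm : 0 < T - 1 - n := by linarith
  have hV0 : 0 ≤ V := by
    have h1 := (main_bound hEF h hR (a := 1 + n) (by linarith)).1
    rw [← hn, ← hV, ← hT, sub_self, zero_pow two_ne_zero, zero_add] at h1
    have h2 : 0 < (T - (1 + n)) ^ 2 := by
      have : 0 < T - (1 + n) := by linarith
      positivity
    by_contra h3
    exact absurd h1 (not_le.2 (div_neg_of_neg_of_pos (not_le.1 h3) h2))
  have hm : 0 ≤ V / (T - 1 - n) := by positivity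
  have h2 := (main_bound hEF h hR (a := 1 + n - V / (T - 1 - n)) (by linarith)).2
  rw [← hn, ← hV, ← hT] at h2
  have e : ((1 + n - (1 + n - V / (T - 1 - n))) ^ 2 + V) / (T - (1 + n - V / (T - 1 - n))) ^ 2 =
      V / (V + (T - 1 - n) ^ 2) := by
    set d : ℝ := T - 1 - n with hd
    have e1 : T - (1 + n - V / d) = d + V / d := by
      rw [hd]
      ring
    have e2 : 1 + n - (1 + n - V / d) = V / d := by ring
    rw [e1, e2]
    have h3 : 0 < V + d ^ 2 := by positivity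
    have h4 : d + V / d = (V + d ^ 2) / d := by
      field_simp
      ring
    rw [h4]
    field_simp
  rwa [e] at h2

theorem main_lower (hEF : Module.finrank F E = 2) (h : CuspidalGL2 S α p p' q q') :
    LowerInert E (fun v : PL S => ∀ w ∈ above E v.1, ∀ i, ‖α w i‖ = 1)
      (1 - (1 + ((p : ℝ) - p') + ((q : ℝ) - q') - ((p : ℝ) - p') ^ 2) /
      ((1 + ((p : ℝ) - p') + ((q : ℝ) - q') - ((p : ℝ) - p') ^ 2) + (3 - ((p : ℝ) - p')) ^ 2)) := by
  have h1 := main_upper hEF h (le_refl (1 : ℝ))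
  have e : ((1 : ℝ) + 1⁻¹) ^ 2 - 1 - ((p : ℝ) - p') = 3 - ((p : ℝ) - p') := by norm_num
  rw [e] at h1
  refine lower_rel h1 fun v _ hv w hw i => ?_
  by_contra hi
  apply hv
  have hu := h.unitary v.1 v.2 w hw
  rcases le_total 1 ‖α w i‖ with h2 | h2
  · exact ⟨w, hw, i, hi, h2⟩
  · obtain ⟨j, -, hj⟩ := hu.partner hi
    have h3 : ‖α w j‖ = ‖α w i‖⁻¹ := by rw [hj, norm_inv, RCLike.norm_conj]
    have h4 : 0 < ‖α w i‖ := norm_pos_iff.2 (hu.1 i)
    refine ⟨w, hw, j, ?_, ?_⟩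
    · rw [h3]
      exact fun h5 => hi (inv_eq_one.1 h5)
    · rw [h3]
      exact (one_le_inv₀ h4).2 h2

theorem main_nine (hEF : Module.finrank F E = 2) (h : CuspidalGL2 S α p p' q q') (h1 : p = p') (h2 : q = q') :
    LowerInert E (fun v : PL S => ∀ w ∈ above E v.1, ∀ i, ‖α w i‖ = 1) (9 / 10) := by
  have h3 := main_lower hEF h
  rw [h1, h2] at h3
  have e : (1 : ℝ) - (1 + ((p' : ℝ) - p') + ((q' : ℝ) - q') - ((p' : ℝ) - p') ^ 2) /
      ((1 + ((p' : ℝ) - p') + ((q' : ℝ) - q') - ((p' : ℝ) - p') ^ 2) + (3 - ((p' : ℝ) - p')) ^ 2) = 9 / 10 := by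
    norm_num
  rwa [e] at h3

end Pool.Agent.T2H30.IN
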